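import Pool.Agent.Q88.NB.Fin

/-!
# Finite rank and 1/2-nuclear perturbations of scalar type operators on reflexive spaces

Let `Y` be a reflexive complex Banach space and `N` an operator on `Y` with a continuous functional
calculus (normal operators on Hilbert spaces, multiplications on `L^p(μ, E)`, diagonal operators with
respect to unconditional decompositions, ...). Let `K` be an operator of finite rank, or, more generally,

  `K x = Σ_j v_j(x) u_j`,  `Σ ‖u_j‖ < ∞`, `Σ ‖v_j‖ < ∞`  (the 1/2-nuclear operators).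

Then `N + K` is a multiple of the identity or has a nontrivial closed hyperinvariant subspace. The same
is true for each operator `T` on a Banach space `X` for which there is a Fredholm operator `S : X → Y`,
of any index, such that the defect `S T - N S` is of this kind, and for `T` with `T S - S N` of this
kind for a Fredholm operator `S : Y → X`; for instance for all compressions of `N + K` to closed
subspaces of finite codimension, along any complement. The defect may also contain finitely many series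
`Σ_n w_n(x) N^n u` over orbits of vectors `u`, with `Σ (n+1) ρ^n ‖w_n‖ < ∞`.

Case of one vector `u_0` and `S = 1`: rank one perturbations (project RB, `Pool.Agent.Q98.RB`). The
case of Hilbert spaces, with trace class operators `K`, is project TC (`Pool.Agent.Q130.TC`), whose parts on
Cauchy transforms of matrices of measures and on weak type estimates are used here.

## Proof

1. The matrix of the measures `v_i(E(.) u_j)` is realized by functions `u_j', v_i'` in one space
   `L^2(μ)` with `Σ ‖u_j'‖^2 < ∞` and `Σ ‖v_i'‖^2 < ∞`; here the 1/2-nuclearity is used (for Hilbert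
   spaces trace class is enough). If the `u_j` have biorthogonal functionals, then the method of
   project TC gives, at each point `a` of the essential spectrum of `N` and each `r > 0`, a vector
   `y ≠ 0` with `‖(N + K - a)^k y‖ ≤ C r^k` for all `k`: in the first case `y` is a weak limit of
   vectors `Σ_j ∫ c_j(z) g(z) (N - z)^(-1) u_j dA(z)` where `(c_j(z))_j` is an approximate null vector of the
   matrix `1 + (v_i(N - z)^(-1) u_j)`; in the second case the norms of these matrices near `a` allow to
   cut off vectors, and if there were no such `y`, `N + K - a` would be onto modulo the range of `K`.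
2. The general case: add to `Y` the summand `ℓ²`, to `N` a scalar multiple of the identity of `ℓ²`, and to
   `u_j` the vector `2^(-j) e_j`. The first components of the vectors `(N + K - a)^k y` cannot vanish.
3. The same for the adjoint operator. Two different points of the essential spectrum give a
   hyperinvariant subspace. Otherwise a polynomial of `N + K` is compact, and the theorem of Lomonosov
   applies.
4. Fredholm operators `S`: the series over orbits are removed by a compact change of `S`. The kernel of `S`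
   is removed by adding to `N` finitely many one dimensional summands, since finite rank defects are allowed.
   If `S` is injective, `T` is similar to the restriction of an operator `N + K` to an invariant
   subspace of finite codimension, and the argument of 3 still works, except for finitely many
   points `a`.
-/

set_option autoImplicit false

namespace Pool.Agent.Results.MP_f981b0_an.HalfNuclearPerturbations

section Defs

variable {X Y : Type} [NormedAddCommGroup X] [NormedSpace ℂ X] [NormedAddCommGroup Y]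
  [NormedSpace ℂ Y]

/-- `X` is reflexive: the canonical map to the bidual is onto. -/
def IsReflexive (X : Type) [NormedAddCommGroup X] [NormedSpace ℂ X] : Prop :=
  Function.Surjective (NormedSpace.inclusionInDoubleDual ℂ X)

/-- `N` has a continuous functional calculus: there are a compact set `K` of complex numbers and a
continuous unital algebra homomorphism from `C(K)` to the bounded operators on `Y` which maps the
function `z` to `N`. -/
def HasContinuousCalculus (N : Y →L[ℂ] Y) : Prop :=
  ∃ (K : Set ℂ) (Ψ : C(K, ℂ) →ₐ[ℂ] (Y →L[ℂ] Y)), IsCompact K ∧ Continuous Ψ ∧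
    Ψ ⟨Subtype.val, continuous_subtype_val⟩ = N

/-- `T` is a multiple of the identity. -/
def IsScalar (T : X →L[ℂ] X) : Prop := ∃ c : ℂ, T = c • (1 : X →L[ℂ] X)

/-- `T` has a closed subspace, neither `{0}` nor the whole space, which is invariant under every
bounded operator commuting with `T`. -/
def HasHyperinvariant (T : X →L[ℂ] X) : Prop :=
  ∃ V : Submodule ℂ X, IsClosed (V : Set X) ∧ V ≠ ⊥ ∧ V ≠ ⊤ ∧
    ∀ Q : X →L[ℂ] X, Q * T = T * Q → ∀ x ∈ V, Q x ∈ V

/-- `D` is 1/2-nuclear: `D x = Σ_j v_j(x) u_j` with `Σ ‖u_j‖ < ∞` and `Σ ‖v_j‖ < ∞`. -/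
def IsHalfNuclear (D : X →L[ℂ] Y) : Prop :=
  ∃ (u : ℕ → Y) (v : ℕ → (X →L[ℂ] ℂ)), (Summable fun j => ‖u j‖) ∧ (Summable fun j => ‖v j‖) ∧
    ∀ x, HasSum (fun j => v j x • u j) (D x)

/-- `D x = Σ_n w_n(x) N^n u` with `Σ (n+1) ρ^n ‖w_n‖ < ∞`. -/
def IsOrbitSeries (N : Y →L[ℂ] Y) (ρ : ℝ) (D : X →L[ℂ] Y) : Prop :=
  ∃ (u : Y) (w : ℕ → X →L[ℂ] ℂ), (Summable fun n : ℕ => (n + 1) * ρ ^ n * ‖w n‖) ∧
    ∀ x, HasSum (fun n => w n x • (N ^ n) u) (D x)

/-- `D y = Σ_n w(N^n y) u_n` with `Σ (n+1) ρ^n ‖u_n‖ < ∞`. -/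
def IsDualOrbitSeries (N : Y →L[ℂ] Y) (ρ : ℝ) (D : Y →L[ℂ] X) : Prop :=
  ∃ (w : Y →L[ℂ] ℂ) (u : ℕ → X), (Summable fun n : ℕ => (n + 1) * ρ ^ n * ‖u n‖) ∧
    ∀ y, HasSum (fun n => w ((N ^ n) y) • u n) (D y)

/-- There is a Fredholm operator `S : X → Y` such that `S T - N S` is the sum of a 1/2-nuclear operator
and of finitely many orbit series. -/
def Intertwined (T : X →L[ℂ] X) (N : Y →L[ℂ] Y) (ρ : ℝ) : Prop :=
  ∃ (S D : X →L[ℂ] Y) (m : ℕ) (E : ℕ → X →L[ℂ] Y), S.IsFredholm ∧ IsHalfNuclear D ∧
    (∀ i < m, IsOrbitSeries N ρ (E i)) ∧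
    S.comp T - N.comp S = D + ∑ i ∈ Finset.range m, E i

/-- There is a Fredholm operator `S : Y → X` such that `T S - S N` is the sum of a 1/2-nuclear operator
and of finitely many dual orbit series. -/
def CoIntertwined (T : X →L[ℂ] X) (N : Y →L[ℂ] Y) (ρ : ℝ) : Prop :=
  ∃ (S D : Y →L[ℂ] X) (m : ℕ) (E : ℕ → Y →L[ℂ] X), S.IsFredholm ∧ IsHalfNuclear D ∧
    (∀ i < m, IsDualOrbitSeries N ρ (E i)) ∧
    T.comp S - S.comp N = D + ∑ i ∈ Finset.range m, E i

/-- `T` and `N` have powers of growth at most `ρ ^ k`. -/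
def PowerBounds (T : X →L[ℂ] X) (N : Y →L[ℂ] Y) (ρ : ℝ) : Prop :=
  0 < ρ ∧ ∃ C : ℝ, ∀ k : ℕ, ‖T ^ k‖ ≤ C * ρ ^ k ∧ ‖N ^ k‖ ≤ C * ρ ^ k

/-- `A` has finite rank. -/
def FiniteRank (A : X →L[ℂ] Y) : Prop := FiniteDimensional ℂ (LinearMap.range (A : X →ₗ[ℂ] Y))

end Defs

/-- Perturbations by operators of finite rank, or 1/2-nuclear operators. -/
def Perturbations : Prop :=
  ∀ (X : Type) [NormedAddCommGroup X] [NormedSpace ℂ X] [CompleteSpace X], IsReflexive X →
    ∀ N : X →L[ℂ] X, HasContinuousCalculus N → ∀ K : X →L[ℂ] X, FiniteRank K ∨ IsHalfNuclear K →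
      IsScalar (N + K) ∨ HasHyperinvariant (N + K)

/-- Compressions `P (N + K) J`, where `P J = 1`, `1 - J P` has finite rank, and `K` is of finite rank or
1/2-nuclear. -/
def Compressions : Prop :=
  ∀ (X Y : Type) [NormedAddCommGroup X] [NormedSpace ℂ X] [CompleteSpace X]
    [NormedAddCommGroup Y] [NormedSpace ℂ Y] [CompleteSpace Y], IsReflexive Y →
    ∀ N : Y →L[ℂ] Y, HasContinuousCalculus N → ∀ K : Y →L[ℂ] Y, FiniteRank K ∨ IsHalfNuclear K →
      ∀ (J : X →L[ℂ] Y) (P : Y →L[ℂ] X), (∀ x, P (J x) = x) → FiniteRank (1 - J.comp P) →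
        IsScalar (P.comp ((N + K).comp J)) ∨ HasHyperinvariant (P.comp ((N + K).comp J))

/-- **Finite rank and 1/2-nuclear perturbations of scalar type operators on reflexive spaces, and the
operators which are Fredholm intertwined with scalar type operators up to such defects, are multiples of
the identity or have hyperinvariant subspaces.** -/
theorem result :
    Perturbations ∧ Compressions ∧
    ∀ (X Y : Type) [NormedAddCommGroup X] [NormedSpace ℂ X] [CompleteSpace X]
      [NormedAddCommGroup Y] [NormedSpace ℂ Y] [CompleteSpace Y], IsReflexive X → IsReflexive Y →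
      ∀ N : Y →L[ℂ] Y, HasContinuousCalculus N → ∀ (T : X →L[ℂ] X) (ρ : ℝ), PowerBounds T N ρ →
        (Intertwined T N ρ ∨ CoIntertwined T N ρ) → IsScalar T ∨ HasHyperinvariant T := by
  have hnu : ∀ (X : Type) [NormedAddCommGroup X] [NormedSpace ℂ X] (K : X →L[ℂ] X),
      FiniteRank K ∨ IsHalfNuclear K → Pool.Agent.Q88.NB.NU K := by
    intro X _ _ K h
    rcases h with h | h
    · exact Pool.Agent.Q88.NB.NU.fin h
    · exact h
  refine ⟨?_, ?_, ?_⟩
  · rintro X _ _ _ hX N ⟨K₀, Ψ, hK₀, hc, hid⟩ K hK
    have hN : Pool.Agent.Q88.RF.HC N := Pool.Agent.Q88.RF.HC.of_compact K₀ hK₀ Ψ hc hid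
    have h1 : (1 : X →L[ℂ] X).IsFredholm := by
      have h2 := Pool.Agent.Q88.RF.fred_one_sub (X := X) (Q := 0) Pool.Agent.Q88.RF.Fr.zero
      rwa [sub_zero] at h2
    refine Pool.Agent.Q88.NB.fred Pool.Agent.Q88.NB.tch hX hN h1 ?_
    have e : (1 : X →L[ℂ] X).comp (N + K) - N.comp (1 : X →L[ℂ] X) = K := by
      ext x
      simp
    rw [e]
    exact hnu X K hK
  · rintro X Y _ _ _ _ _ _ hY N ⟨K₀, Ψ, hK₀, hc, hid⟩ K hK J P hPJ hF
    have hN : Pool.Agent.Q88.RF.HC N := Pool.Agent.Q88.RF.HC.of_compact K₀ hK₀ Ψ hc hid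
    exact Pool.Agent.Q88.NB.compr Pool.Agent.Q88.NB.tch hY hN (hnu Y K hK) hPJ hF
  · rintro X Y _ _ _ _ _ _ hX hY N ⟨K, Ψ, hK, hc, hid⟩ T ρ ⟨hρ, C, hC⟩ h
    have hN : Pool.Agent.Q88.RF.HC N := Pool.Agent.Q88.RF.HC.of_compact K hK Ψ hc hid
    rcases h with ⟨S, D, m, E, hS, hD, hE, h⟩ | ⟨S, D, m, E, hS, hD, hE, h⟩
    · exact Pool.Agent.Q88.NB.ser Pool.Agent.Q88.NB.tch hY hN hρ (fun k => (hC k).1)
        (fun k => (hC k).2) m E hE S D hS hD h
    · exact Pool.Agent.Q88.NB.ser_dual Pool.Agent.Q88.NB.tch hX hY hN hρ (fun k => (hC k).1)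
        (fun k => (hC k).2) m E hE hS hD h

end Pool.Agent.Results.MP_f981b0_an.HalfNuclearPerturbations
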