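import Pool.Agent.Q98.NS.Fin3
import Pool.Agent.Y891.NK.AREA

/-!
# Perturbations of normal operators in Schatten classes `S_p`, `p < 2`, for almost every coupling

Let `N` be a normal operator on a separable complex Hilbert space and `K` an operator of a Schatten
class `S_p` with `p < 2`. No condition is put on `N` (its spectrum may have interior, its spectral
measure may be anything) and no further condition on `K`. For every `t` outside a set which is null
for all atomless measures with bounded logarithmic potential, in particular for almost every complex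
`t` and for almost every real `t`, the operator `T = N + t K` is a multiple of the identity or has a
nontrivial closed hyperinvariant subspace. Moreover for these `t` every point `c` of the spectrum
carries, for every `ε > 0`, a nonzero vector `x` with `‖(T - c)^n x‖ ≤ C ε ^ n` for all `n`, and
the same holds for the adjoint.

For `p = 1` this is the starting file `NormalPlusTraceClass` (project NK). Its proof needs that the
matrices `F(z)` of the Cauchy transforms are of trace class for almost every `z`, and that the vectors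
of `K` have square summable norms. The proof here combines the duality of `NuclearReflexive`
(`Pool.Agent.Q98.NR`) with regularised determinants.

* `K x = ∑ ⟪v i, x⟫ u i` with orthogonal `(u i)`, `(v i)` and `‖u i‖ = ‖v i‖`, `N` the multiplication by
  `φ` on `L²(μ)`. For a matrix `A` let `PF p A G` mean `∑ |⟪A e k, e k⟫|^p ≤ G` for all orthonormal bases.
  In an orthonormal basis which makes `A` triangular one sees that the regularised determinant
  `det (1 - A) exp (tr A)` is at most `exp (2 G)`, `1 ≤ p ≤ 2`, that the inverse of `1 - A` times it is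
  at most `exp (4 G + 6)`, and that the logarithmic integral over `t` of the determinant of `t A`
  is at most `C G` for measures with bounded logarithmic potential (`NS/Det`, `NS/Pot`).
* The matrix `F(z)` of the Cauchy transforms of `conj (v i) u k μ` satisfies `PF p` with the integrable
  function `G(z) = ∑ c i ∫ (|u i|² + |v i|²) |z - φ|^(-p) dμ` (`NS/Pfc`), where the weights satisfy
  `∑ c i ‖u i‖² < ∞` if `∑ ‖u i‖^(2 q) < ∞` for some `q < p` (`NS/Wts`). This is shown by collecting
  the vectors with about the same norm in blocks, with the inequality of Hölder for each block and a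
  geometric weight for the sum over the blocks (`NS/Blk`). It is here that the orthogonality is used.
* If there is no nonzero `x` with `‖(T - a)^k x‖ ≤ C r^k`, then by the theorem of Hahn and Banach for
  each `y` there are polynomials `h` with values in the dual space such that `(z - T') h(z) - y` is small
  as a power series on the disc of radius `r` about `a`. The values `h(z)(u k)` solve the linear system
  with matrix `1 - t F(z)`; since `log |h|` is subharmonic, `h` is bounded near `a` by a constant
  depending only on `y` (`NS/Bet`, `NS/Ell2`, `NS/Yz2`). At `z = a` this gives that `T - a` is bounded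
  below, which is impossible at the points of the essential spectrum of `N` (`NS/Bel2`).
* So `T` at `a` and `T†` at `b` have vectors as above, and they annihilate each other across the
  commutant. If there are no two points `a ≠ b` in the essential spectrum, `T - a` is compact and
  the theorem of Lomonosov (library) applies (`NS/Fin2`, `NS/Fin3`).

From the starting library this uses: Schur's theorem (`Y978`), potentials (`Y891`), the lemma of Fatou in
the form of `Y487`, Cauchy transforms (`Y271`, `Y604`), the spectral theorem (`Y25`), the annihilation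
(`Y529`), adjoints (`Y77`), Lomonosov's theorem (`W577`).
-/

set_option autoImplicit false

open MeasureTheory Metric
open scoped InnerProductSpace ENNReal NNReal

namespace Pool.Agent.Results.MP_f981b0_an.NormalPlusSchatten

section Defs

variable {H : Type} [NormedAddCommGroup H] [InnerProductSpace ℂ H]

/-- `T` is a multiple of the identity. -/
def IsScalar (T : H →L[ℂ] H) : Prop := ∃ c : ℂ, T = c • (1 : H →L[ℂ] H)

/-- `T` has a closed subspace, neither `{0}` nor the whole space, which is invariant under every
bounded operator commuting with `T`. -/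
def HasHyperinvariant (T : H →L[ℂ] H) : Prop :=
  ∃ V : Submodule ℂ H, IsClosed (V : Set H) ∧ V ≠ ⊥ ∧ V ≠ ⊤ ∧
    ∀ Q : H →L[ℂ] H, Q * T = T * Q → ∀ x ∈ V, Q x ∈ V

/-- For every point `c` of the spectrum and every `ε > 0` there is a nonzero vector `x` with
`‖(T - c)^n x‖ ≤ C ε ^ n` for all `n`. -/
def SmallLocalSpectra (T : H →L[ℂ] H) : Prop :=
  ∀ c ∈ spectrum ℂ T, ∀ ε : ℝ, 0 < ε → ∃ (x : H) (C : ℝ), x ≠ 0 ∧
    ∀ n : ℕ, ‖((T - c • (1 : H →L[ℂ] H)) ^ n) x‖ ≤ C * ε ^ n

/-- The conclusion of the theorem for one operator. -/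
def Good [CompleteSpace H] (T : H →L[ℂ] H) : Prop :=
  (IsScalar T ∨ HasHyperinvariant T) ∧ SmallLocalSpectra T ∧
    SmallLocalSpectra (ContinuousLinearMap.adjoint T)

/-- `K` is in the Schatten class `S_p`: `K x = ∑ ⟪v i, x⟫ u i` with orthogonal sequences `(u i)` and
`(v i)` and `∑ (‖u i‖ ‖v i‖)^p < ∞` (the nonzero numbers `‖u i‖ ‖v i‖` are the singular values). -/
def SchattenClass (p : ℝ) (K : H →L[ℂ] H) : Prop :=
  ∃ u v : ℕ → H, (∀ i j, i ≠ j → ⟪u i, u j⟫_ℂ = 0) ∧ (∀ i j, i ≠ j → ⟪v i, v j⟫_ℂ = 0) ∧
    Summable (fun i => (‖u i‖ * ‖v i‖) ^ p) ∧ ∀ x, HasSum (fun i => ⟪v i, x⟫_ℂ • u i) (K x)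

end Defs

/-- The measure `m` has no atoms, and on every disc `|t| < R` it is finite and
`∫ log⁺ (1 / |t - s|) dm(t)` is bounded in `s ∈ ℂ`. -/
def BoundedPotential (m : Measure ℂ) : Prop :=
  (∀ s : ℂ, m {s} = 0) ∧
  ∀ R : ℝ, m (ball (0:ℂ) R) ≠ ⊤ ∧ ∃ C : ℝ≥0, ∀ s : ℂ,
    ∫⁻ t in ball (0:ℂ) R, ENNReal.ofReal (Real.posLog ‖t - s‖⁻¹) ∂m ≤ C

/-- vectors with equal norms -/
theorem rescale {H : Type} [NormedAddCommGroup H] [InnerProductSpace ℂ H] (u v : H) :
    ∃ α β : ℂ, (∀ x, ⟪β • v, x⟫_ℂ • (α • u) = ⟪v, x⟫_ℂ • u) ∧ ‖α • u‖ ^ 2 = ‖u‖ * ‖v‖ ∧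
      ‖β • v‖ ^ 2 = ‖u‖ * ‖v‖ := by
  by_cases h : ‖u‖ * ‖v‖ = 0
  · refine ⟨0, 0, fun x => ?_, ?_, ?_⟩
    · rcases mul_eq_zero.1 h with h0 | h0
      · rw [norm_eq_zero] at h0
        simp [h0]
      · rw [norm_eq_zero] at h0
        simp [h0]
    · rw [h, zero_smul, norm_zero]
      norm_num
    · rw [h, zero_smul, norm_zero]
      norm_num
  · have hu : ‖u‖ ≠ 0 := left_ne_zero_of_mul h
    have hv : ‖v‖ ≠ 0 := right_ne_zero_of_mul h
    have hu0 : 0 < ‖u‖ := lt_of_le_of_ne (norm_nonneg _) hu.symm
    have hv0 : 0 < ‖v‖ := lt_of_le_of_ne (norm_nonneg _) hv.symm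
    obtain ⟨s, hs⟩ : ∃ s : ℝ, s = Real.sqrt (‖u‖ * ‖v‖) := ⟨_, rfl⟩
    have hs0 : 0 < s := by
      rw [hs]
      positivity
    have hs2 : s ^ 2 = ‖u‖ * ‖v‖ := by
      rw [hs]
      exact Real.sq_sqrt (by positivity)
    have hsc : (s : ℂ) ≠ 0 := by exact_mod_cast hs0.ne'
    have huc : (‖u‖ : ℂ) ≠ 0 := by exact_mod_cast hu
    refine ⟨((s / ‖u‖ : ℝ) : ℂ), ((‖u‖ / s : ℝ) : ℂ), fun x => ?_, ?_, ?_⟩
    · rw [inner_smul_left, Complex.conj_ofReal, smul_smul]
      congr 1
      push_cast
      field_simp
    · rw [norm_smul, Complex.norm_real, Real.norm_of_nonneg (by positivity),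
        div_mul_cancel₀ _ hu, hs2]
    · rw [norm_smul, Complex.norm_real, Real.norm_of_nonneg (by positivity), mul_pow, div_pow, hs2]
      field_simp

/-- **Generic perturbations of normal operators in `S_p`, `p < 2`, have hyperinvariant subspaces.**
Let `N` be normal and `K` in the Schatten class `S_p`, `0 < p < 2`, on a separable Hilbert space. Then
`N + t K` is good (a multiple of the identity or with a nontrivial hyperinvariant subspace, and with
small local spectra, as its adjoint) for almost every `t` with respect to every atomless measure with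
bounded logarithmic potential, in particular for almost every complex and for almost every real
`t`. -/
theorem result (H : Type) [NormedAddCommGroup H] [InnerProductSpace ℂ H] [CompleteSpace H]
    [TopologicalSpace.SeparableSpace H] (N K : H →L[ℂ] H) (hN : IsStarNormal N) (p : ℝ)
    (hp0 : 0 < p) (hp2 : p < 2) (hK : SchattenClass p K) :
    (∀ (m : Measure ℂ) [SFinite m], BoundedPotential m →
      ∀ᵐ t ∂m, Good (N + t • K)) ∧
    (∀ᵐ t : ℂ, Good (N + t • K)) ∧
    (∀ᵐ t : ℝ, Good (N + (t : ℂ) • K)) := by
  obtain ⟨u, v, hu, hv, hs, hK⟩ := hK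
  choose α β h1 h2 h3 using fun i => rescale (u i) (v i)
  have hu' : Pairwise fun i j => ⟪α i • u i, α j • u j⟫_ℂ = 0 := fun i j hij => by
    show ⟪α i • u i, α j • u j⟫_ℂ = 0
    rw [inner_smul_left, inner_smul_right, hu i j hij, mul_zero, mul_zero]
  have hv' : Pairwise fun i j => ⟪β i • v i, β j • v j⟫_ℂ = 0 := fun i j hij => by
    show ⟪β i • v i, β j • v j⟫_ℂ = 0
    rw [inner_smul_left, inner_smul_right, hv i j hij, mul_zero, mul_zero]
  have hK' : ∀ x, HasSum (fun i => ⟪β i • v i, x⟫_ℂ • (α i • u i)) (K x) := by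
    intro x
    simp only [h1]
    exact hK x
  have main : ∀ (m : Measure ℂ) [SFinite m], Pool.Agent.Y283.NK.LogBd m →
      ∀ᵐ t ∂m, Good (N + t • K) := by
    intro m _ hm
    filter_upwards [Pool.Agent.Q98.NS.main2 H N K hN _ _ hu' hv' h2 h3 hp0 hp2 hs hK' m hm]
      with t ht
    exact ht
  refine ⟨?_, ?_, ?_⟩
  · intro m _ hm
    refine main m fun R => ?_
    obtain ⟨h0, hm⟩ := hm
    obtain ⟨h1, C, hC⟩ := hm R
    refine ⟨C + (m (ball (0:ℂ) R)).toNNReal, ?_, fun s => ?_⟩
    · rw [ENNReal.coe_add, ENNReal.coe_toNNReal h1]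
      exact le_add_self
    · calc ∫⁻ t in ball (0:ℂ) R, Pool.Agent.Y283.NK.lm ‖t - s‖ ∂m
          = ∫⁻ t in ball (0:ℂ) R, ENNReal.ofReal (Real.posLog ‖t - s‖⁻¹) ∂m := by
            refine lintegral_congr_ae (ae_restrict_of_ae ?_)
            have h2 : ∀ᵐ t ∂m, t ≠ s := by
              rw [ae_iff]
              simpa using h0 s
            filter_upwards [h2] with t ht
            unfold Pool.Agent.Y283.NK.lm
            rw [if_neg (by simpa [sub_eq_zero] using ht)]
        _ ≤ C := hC s
        _ ≤ _ := by rw [ENNReal.coe_add]; exact le_self_add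
  · exact main volume Pool.Agent.Y891.NK.main_vol.1
  · have h := main (Measure.map (fun t : ℝ => (t : ℂ)) volume) Pool.Agent.Y891.NK.main_vol.2
    exact ae_of_ae_map Complex.continuous_ofReal.measurable.aemeasurable h

end Pool.Agent.Results.MP_f981b0_an.NormalPlusSchatten
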