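import Pool.Agent.Q98.SK.Lp6

/-!
# Perturbations of multiplication operators on `L^p(μ)` in the Grothendieck–Lidskii range

Let `1 < p < ∞`, `1/p + 1/q = 1`, `μ` a `σ`-finite measure, `N` the multiplication by a bounded measurable
function `φ` on complex `L^p(μ)` (there is no condition on the spectrum of `N`, it may have interior) and
`K f = ∑ (∫ v_j f) u_j` with `(∑ |u_j|²)^(1/2) ∈ L^p(μ)`, `(∑ |v_j|²)^(1/2) ∈ L^q(μ)`. For `p = 2` these are the
trace class operators. All nuclear operators of order `r`, `1/r ≥ 1 + |1/2 - 1/p|`, are of this kind; this is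
the exponent for which the eigenvalues of nuclear operators on `L^p` are summable and the trace formula
holds (Grothendieck, Reinov–Latif). Then `T = N + K` is a multiple of the identity or has a nontrivial
closed hyperinvariant subspace; every point of the spectrum of `T` carries for every `ε > 0` a nonzero
`x` with `‖(T - c)^n x‖ ≤ C ε^n` for all `n`, and the same holds for the adjoint.

For `p = 2` (normal operators, `K` of trace class) this is `TraceClassPerturbations` (project TC of
helper130 and others), which is not repeated here: the statement is for `p ≠ 2`. On all reflexive spaces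
`HalfNuclearPerturbations` (project NB) has the case `r = 1/2`; there the sums over `j` are estimated
termwise. The new part (project SK, `Pool.Agent.Q98.SK`): all estimates of the two projects are done for
rows `(h_j)` of functions with `∑ |h_j(z)|² ≤ M²` at once. The basic estimate is
`‖∑ h_j(N) u_j‖ ≤ M ‖(∑ |u_j|²)^(1/2)‖_p`, and the same for the adjoint calculus on `(v_j)` (`SK/Base`,
structure `RB`); Cauchy transforms are estimated by Minkowski's inequality in `ℓ²` and by the weak type
`(1,1)` estimate for `ℓ²`-valued functions of project TC.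

* Chains. `x` is the head of a chain at `a` of radius `r` if `‖(T - a)^k x‖ ≤ C r^k`. At a point `a` of the
  essential spectrum there are nonzero chains of every radius. Case A (`SK/CaseA`): there are densities
  `l_n` near `a` for which Cauchy transforms are uniformly of weak type `(1,1)` and on which the matrix
  `1 - F(z)` (`F` the Cauchy transforms of the pairs `v_i, u_j`) is nearly singular; the vectors
  `∑ ∫ g(z) c_j(z) (z - N)⁻¹ u_j dz`, `c(z)` nearly in the kernel, are approximate chains, of bounded norm for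
  a suitable `g ≤ l_n` (an element of minimal norm). Case B (`SK/CaseB`, `SK/CaseB2`): otherwise there are
  cut-off functions `Θ` whose `∂̄`-derivative is dominated by the smallest singular value of
  `1 - F(z)`; then `y - ∑ ∫ ∂̄Θ(z) h_j(z) (z - N)⁻¹ u_j dz`, `(1 - F) h` the Cauchy transforms of `y`, is a head of an
  approximate chain, and if all chains vanish then `T - a` is onto modulo the range of `K`, which is
  impossible in the essential spectrum (`SK/Chain`).
* The nonvanishing of the limit in case A uses functionals biorthogonal to the `u_j`; they exist on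
  `L^p ⊕ ℓ²`, with `N` a multiple of the identity on `ℓ²` (`SK/Ext`, `SK/Ext2`).
* The data in `L^p`: `SK/Lp1` to `SK/Lp4`; the pairs `v_i u_j` are realized by `u'_j = (G/F)^(1/2) u_j`,
  `v'_j = (F/G)^(1/2) conj v_j` in `L²`, `F`, `G` the square functions. The dual of `L^p` for a `σ`-finite
  measure, the square functions of nuclear operators and the convergence of the sections are by
  helper208 (`Pool.Agent.Q208.SK`).
* Two points `a ≠ b` of the essential spectrum: chains for `T` at `a` and for the adjoint at `b` annihilate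
  each other across the commutant. Otherwise `T - a` is compact and Lomonosov's theorem applies.
  At the other points of the spectrum there are eigenvectors.
-/

set_option autoImplicit false

namespace Pool.Agent.Results.MP_f981b0_an.NuclearPerturbationsLp

open MeasureTheory
open scoped ENNReal

section Defs

variable {X : Type} [NormedAddCommGroup X] [NormedSpace ℂ X]

/-- `T` is a multiple of the identity. -/
def IsScalar (T : X →L[ℂ] X) : Prop := ∃ c : ℂ, T = c • (1 : X →L[ℂ] X)

/-- `T` has a closed subspace, neither `{0}` nor the whole space, which is invariant under every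
bounded operator commuting with `T`. -/
def HasHyperinvariant (T : X →L[ℂ] X) : Prop :=
  ∃ V : Submodule ℂ X, IsClosed (V : Set X) ∧ V ≠ ⊥ ∧ V ≠ ⊤ ∧
    ∀ Q : X →L[ℂ] X, Q * T = T * Q → ∀ x ∈ V, Q x ∈ V

/-- For every point `c` of the spectrum and every `ε > 0` there is a nonzero vector `x` with
`‖(T - c)^n x‖ ≤ C ε ^ n` for all `n`. -/
def SmallLocalSpectra (T : X →L[ℂ] X) : Prop :=
  ∀ c ∈ spectrum ℂ T, ∀ ε : ℝ, 0 < ε → ∃ (x : X) (C : ℝ), x ≠ 0 ∧
    ∀ n : ℕ, ‖((T - c • (1 : X →L[ℂ] X)) ^ n) x‖ ≤ C * ε ^ n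

/-- The adjoint `w ↦ w ∘ T` on the dual space. -/
noncomputable def dualOperator (T : X →L[ℂ] X) : StrongDual ℂ X →L[ℂ] StrongDual ℂ X :=
  (ContinuousLinearMap.compL ℂ X X ℂ).flip T

/-- `K` is nuclear of order `r`: `K x = ∑ w j (x) u j` with `∑ (‖u j‖ ‖w j‖)^r < ∞`. -/
def IsNuclearOfOrder (r : ℝ) (K : X →L[ℂ] X) : Prop :=
  ∃ (u : ℕ → X) (w : ℕ → (X →L[ℂ] ℂ)), Summable (fun j => (‖u j‖ * ‖w j‖) ^ r) ∧
    ∀ x, HasSum (fun j => w j x • u j) (K x)

end Defs

section Lp

variable {S : Type} [MeasurableSpace S] {μ : Measure S} {p : ℝ≥0∞} [Fact (1 ≤ p)]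

/-- `N` is the multiplication by a bounded measurable function on `L^p(μ)`. -/
def IsMultiplication (N : Lp ℂ p μ → Lp ℂ p μ) : Prop :=
  ∃ (φ : S → ℂ) (R : ℝ), Measurable φ ∧ (∀ s, ‖φ s‖ ≤ R) ∧
    ∀ f : Lp ℂ p μ, N f =ᵐ[μ] fun s => φ s * f s

/-- The square function `(∑ |w j|²)^(1/2)` of a sequence in `L^r(μ)` belongs to `L^r(μ)`. -/
def SquareFunctionInLp {r : ℝ≥0∞} (w : ℕ → Lp ℂ r μ) : Prop :=
  ∫⁻ s, (∑' j, ‖w j s‖ₑ ^ 2) ^ (r.toReal / 2) ∂μ < ∞

/-- `K f = ∑ (∫ v_j f) u_j` on `L^p(μ)` with square functions `(∑ |u_j|²)^(1/2)` in `L^p(μ)` and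
`(∑ |v_j|²)^(1/2)` in `L^q(μ)`. -/
def HasSquareFunctions (q : ℝ≥0∞) (K : Lp ℂ p μ → Lp ℂ p μ) : Prop :=
  ∃ (u : ℕ → Lp ℂ p μ) (v : ℕ → Lp ℂ q μ), SquareFunctionInLp u ∧ SquareFunctionInLp v ∧
    ∀ f : Lp ℂ p μ, HasSum (fun j => (∫ s, v j s * f s ∂μ) • u j) (K f)

end Lp

/-- **Perturbations of multiplication operators on `L^p(μ)` in the Grothendieck–Lidskii range have
hyperinvariant subspaces.** Let `1 < p < ∞`, `p ≠ 2`, `1/p + 1/q = 1`, `μ` a `σ`-finite measure, `N` the
multiplication by a bounded measurable function on complex `L^p(μ)` and `K f = ∑ (∫ v_j f) u_j` with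
square functions in `L^p(μ)` and `L^q(μ)`, or `K` nuclear of order `r` with `1/r ≥ 1 + |1/2 - 1/p|`. Then
`T = N + K` is a multiple of the identity or has a nontrivial closed hyperinvariant subspace, and
for every `c` in the spectrum of `T` and `ε > 0` there is `x ≠ 0` with `‖(T - c)^n x‖ ≤ C ε^n` for all `n`; the
same local statement holds for the adjoint of `T`. -/
theorem result (S : Type) [MeasurableSpace S] (μ : Measure S) [SigmaFinite μ] (p q : ℝ≥0∞)
    [Fact (1 ≤ p)] [Fact (1 ≤ q)] [p.HolderConjugate q] (hp : 1 < p) (hq : 1 < q) (_hp2 : p ≠ 2)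
    (N K : Lp ℂ p μ →L[ℂ] Lp ℂ p μ) (hN : IsMultiplication N)
    (hK : HasSquareFunctions q K ∨
      ∃ r : ℝ, 0 < r ∧ 1 + |1 / 2 - 1 / p.toReal| ≤ 1 / r ∧ IsNuclearOfOrder r K) :
    (IsScalar (N + K) ∨ HasHyperinvariant (N + K)) ∧ SmallLocalSpectra (N + K) ∧
      SmallLocalSpectra (dualOperator (N + K)) := by
  obtain ⟨φ, R, hφ, hR, hN⟩ := hN
  have key : ∃ (u : ℕ → Lp ℂ p μ) (v : ℕ → Lp ℂ q μ), Pool.Agent.Q98.SK.SQ μ p u ∧
      Pool.Agent.Q98.SK.SQ μ q v ∧
        ∀ f : Lp ℂ p μ, HasSum (fun j => (∫ s, v j s * f s ∂μ) • u j) (K f) := by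
    rcases hK with ⟨u, v, hu, hv, hK⟩ | ⟨r, hr, hrp, u, w, hs, hK⟩
    · exact ⟨u, v, ne_of_lt hu, ne_of_lt hv, hK⟩
    · exact Pool.Agent.Q98.SK.nuc_sq hp hq hr hrp hs hK
  obtain ⟨u, v, hu, hv, hK⟩ := key
  exact Pool.Agent.Q98.SK.lp_main hp hq hφ hR hN hu hv hK

end Pool.Agent.Results.MP_f981b0_an.NuclearPerturbationsLp
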