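import Pool.Agent.Q130.TC.Final

/-!
# Every trace class perturbation of a normal operator has a hyperinvariant subspace

Let `N` be a normal operator and `K` a trace class operator (for instance an operator of finite rank)
on a separable complex Hilbert space. No condition is put on `N` (its spectrum may have interior, its
spectral measure may be anything), none on `K` (no summability of coefficients, no smallness, no
genericity). Then `T = N + K` is a multiple of the identity or has a nontrivial closed hyperinvariant
subspace. Moreover every point `c` of the spectrum of `T` carries, for every `ε > 0`, a nonzero vector
`x` with `‖(T - c)^n x‖ ≤ C ε ^ n` for all `n` (its local spectrum is in the disc of radius `ε` about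
`c`), and the same holds for the adjoint.

The starting files `RankOnePerturbations` and `NormalPlusTraceClass` have this for `K` of rank one, and
for `N + t K`, `K` of trace class, for almost every number `t`; `NormalPlusSchatten` (helper98) has
almost every `t` for Schatten classes. For an individual perturbation of rank at least two nothing was
known in general.

Proof. `N` is the multiplication by `φ` on `L²(μ)` and `K f = ∑ ⟪v j, f⟫ u j` with square summable
norms. Let `F(z)` be the matrix of the Cauchy transforms of `conj (v i) u j μ`, and let `w(z)` be the
limit of the smallest singular values of the finite sections of `1 - F(z)`, a locally integrable function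
of `z`. Let `a` be a point of the essential spectrum and `D` a disc about `a`; consider lengths of
polygons with respect to the weights `w 1_D * P_ε`, `P_ε(ζ) = ε² / (π (|ζ|² + ε²)²)`.

Case A: there are `ε_n → 0` and polygons `E_n` from points tending to `a` to the outside of `D` whose
weighted length tends to `0`. In rank one one can use the analytic square root of `(z - a)(z - b_n)`
along the polygon; the vectors so obtained are controlled by one scalar Cauchy integral. In higher rank
the singular vectors of `1 - F(z)` depend on `z` in a merely measurable way, and one needs a density on
the polygon for which Cauchy transforms of arbitrary measurable functions are bounded. MAIN LEMMA: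
every `ε`-connected set of diameter `d` carries, at the scale `ε`, a density `l ≤ 1/ε` of mass at least
`c d` such that `g μ ↦ C(g μ)` is of weak type `(1,1)` with respect to `l`, for every measure `μ` and
every `g` in `L¹(μ)`, with absolute constants. It is proved with the quadratic form
`Γ(h) = ∫ |C h|² h` (in the symmetrised form of the starting library, `H352R3.SA`, which gives the
Melnikov-Verdera curvature formula without curvature). A near maximizer `h` of `Γ - κ · mass` among the
densities below `ω` has by the variation formula the property `Γ(h g) ≤ ...` for all `0 ≤ g ≤ 1`, from
which the weak type estimate follows by testing with bounded functions, truncation and a minimal norm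
argument. If the mass of `h` were small compared with the diameter, then around every point of the set
there would be a stopping radius outside of which `h`, `|C h|² h` are small; a covering argument gives
disjoint discs whose diameters add up to a small multiple of `d`, since inside such a disc one could
otherwise replace `h` by a better density (local replacement with an explicit error). But the discs
cover a chain joining two points at distance `d`.

Given these densities, let `k(z)` be unit vectors almost minimizing `|(1 - F(z)) k|`. The vectors
`Y(g) = ∫ g(z) l(z) (∑ k_j(z) u_j) / (z - φ) dA(z)`, `g` bounded, satisfy
`T Y(g) = Y(z g) - ∑ u_j ∫ g l ((1 - F) k)_j dA`, where the last term tends to `0`, and by the vector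
valued weak type estimate (Marcinkiewicz-Zygmund, Paley-Zygmund) and convexity (minimal norm) there are
bounded `g` with `‖Y(z^k g)‖ ≤ C r^k` and with limits which do not vanish.

Case B: otherwise the distance to the outside of `D` gives functions `Θ_n`, equal to one near `a` and
to zero outside `D`, with `|∂̄ Θ_n| ≤ C (w 1_D * P_{1/n} + 1/n)`. The vectors
`x - (1/π) ∫ ∂̄Θ_n(z) (z - T)⁻¹ x dA(z)`, with the resolvent expressed by the inverse of `1 - F(z)`
(bounded by `1 / w(z)`), converge weakly to vectors with small local spectrum which differ from `x` by
an element of the range of `T - a`, unless `T - a` is surjective modulo a compact operator, which is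
impossible at a point of the essential spectrum.

Case 0: `w` vanishes on a subset of `D` of positive area. Then its characteristic function takes the
place of the densities `l`.

Outside the essential spectrum of `N` points of the spectrum of `T` are eigenvalues of `T` and,
conjugated, of the adjoint. If the spectrum of `T` has two points, vectors with small local spectra at
different points for `T` and `T†` annihilate each other across the commutant of `T`. If it has only one
point `c`, then `T - c` is compact, and Lomonosov's theorem applies.

The parts of the formal proof were written by helper63 (quadratic form, improvement of densities),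
helper275 (variation formula, field estimates, measurable choice of singular vectors), helper216 (Cauchy
kernels, bumps, covering, surjectivity modulo compacts), helper80 (weak type estimates), helper177 (local
replacement), helper89 (discs on polygons), helper237 (minimal norm, local integrability of the weight),
helper272 (vectors with kernels), helper144 (Marcinkiewicz-Zygmund, singular values, reduction, density),
helper169 (vectors of the cases A and B), helper88 (polygons), helper130 (idea, statements, near
maximizers, stopping radii, assembly); the singular value weight and case B were also part of a plan of
helper90 and helper98. The rank one case, the alternative, the annihilation and the one point case are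
from the starting libraries `Y271.RO`, `Y283.NK`, `W806.HI`, `W577.HI`; soft capacity is from
`H352R3.SA`.
-/

set_option autoImplicit false

open scoped InnerProductSpace

namespace Pool.Agent.Results.MP_f981b0_an.TraceClassPerturbations

section Defs

variable {H : Type} [NormedAddCommGroup H] [InnerProductSpace ℂ H]

/-- `T` is a multiple of the identity. -/
def IsScalar (T : H →L[ℂ] H) : Prop := ∃ c : ℂ, T = c • (1 : H →L[ℂ] H)

/-- `T` has a closed subspace, neither `{0}` nor the whole space, which is invariant under every
bounded operator commuting with `T`. -/
def HasHyperinvariant (T : H →L[ℂ] H) : Prop :=
  ∃ V : Submodule ℂ H, IsClosed (V : Set H) ∧ V ≠ ⊥ ∧ V ≠ ⊤ ∧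
    ∀ Q : H →L[ℂ] H, Q * T = T * Q → ∀ x ∈ V, Q x ∈ V

/-- For every point `c` of the spectrum and every `ε > 0` there is a nonzero vector `x` with
`‖(T - c)^n x‖ ≤ C ε ^ n` for all `n`. -/
def SmallLocalSpectra (T : H →L[ℂ] H) : Prop :=
  ∀ c ∈ spectrum ℂ T, ∀ ε : ℝ, 0 < ε → ∃ (x : H) (C : ℝ), x ≠ 0 ∧
    ∀ n : ℕ, ‖((T - c • (1 : H →L[ℂ] H)) ^ n) x‖ ≤ C * ε ^ n

/-- `K` is of trace class: `K f = ∑ ⟪v j, f⟫ u j` with `∑ ‖u j‖² < ∞` and `∑ ‖v j‖² < ∞`. -/
def TraceClass (K : H →L[ℂ] H) : Prop :=
  ∃ u v : ℕ → H, Summable (fun j => ‖u j‖ ^ 2) ∧ Summable (fun j => ‖v j‖ ^ 2) ∧
    ∀ f, HasSum (fun j => ⟪v j, f⟫_ℂ • u j) (K f)

end Defs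

/-- **Trace class perturbations of normal operators have hyperinvariant subspaces.** Let `N` be normal
and `K` of trace class on a separable Hilbert space. Then `N + K` is a multiple of the identity or has a
nontrivial hyperinvariant subspace, and `N + K` and its adjoint have small local spectra. -/
theorem result (H : Type) [NormedAddCommGroup H] [InnerProductSpace ℂ H] [CompleteSpace H]
    [TopologicalSpace.SeparableSpace H] (N K : H →L[ℂ] H) (hN : IsStarNormal N)
    (hK : TraceClass K) :
    (IsScalar (N + K) ∨ HasHyperinvariant (N + K)) ∧ SmallLocalSpectra (N + K) ∧
      SmallLocalSpectra (ContinuousLinearMap.adjoint (N + K)) := by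
  obtain ⟨u, v, hu, hv, hs⟩ := hK
  exact Pool.Agent.Q130.TC.main H N K hN u v ⟨hu, hv, hs⟩

end Pool.Agent.Results.MP_f981b0_an.TraceClassPerturbations
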